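import Pool.Agent.Helper75.KS.GoalsX

/-!
# Riemann sums
-/

namespace Pool.Agent.Helper35.KS

open MeasureTheory Filter Topology Finset
open Pool.Agent.Helper75.KS

theorem rie : RieStmt := by
  intro G L ε hG hL h0 hε
  have hcs : HasCompactSupport G :=
    HasCompactSupport.intro (K := Set.Icc (-L) L) isCompact_Icc (fun y hy => h0 y (by
      by_contra h
      exact hy (Set.mem_Icc.2 (abs_le.1 (not_lt.1 h)))))
  have huc : UniformContinuous G := hcs.uniformContinuous_of_continuous hG
  have hint : Integrable G := hG.integrable_of_hasCompactSupport hcs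
  set e : ℝ := ε / (2 * (L + 1)) with he
  have he0 : 0 < e := by positivity
  obtain ⟨δ, hδ, hd⟩ := Metric.uniformContinuous_iff.1 huc e he0
  refine ⟨max 1 (2 / δ), le_max_left _ _, ?_⟩
  intro S n r hS hlo hhi
  have hS1 : 1 ≤ S := le_trans (le_max_left _ _) hS
  have hS0 : 0 < S := by linarith
  have hSδ : 1 / S < δ := by
    have h2 : 2 / δ ≤ S := le_trans (le_max_right _ _) hS
    rw [div_lt_iff₀ hS0]
    rw [div_le_iff₀ hδ] at h2
    nlinarith
  have hS1' : 1 / S ≤ 1 := by
    rw [div_le_one hS0]; exact hS1
  -- the grid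
  set a : ℕ → ℝ := fun k => ((k : ℝ) - ((r : ℕ) : ℝ)) / S with ha
  have hstep : ∀ k, a (k + 1) = a k + 1 / S := by
    intro k
    simp only [ha]
    push_cast
    ring
  have hle : ∀ k, a k ≤ a (k + 1) := by
    intro k
    rw [hstep]
    have : 0 < 1 / S := by positivity
    linarith
  have ha0 : a 0 ≤ -(L + 1) := by
    simp only [ha, Nat.cast_zero, zero_sub]
    rw [div_le_iff₀ hS0]
    linarith
  have han : L + 1 ≤ a n := by
    simp only [ha]
    rw [le_div_iff₀ hS0]
    linarith
  -- the integral over the line
  have hI : ∫ y, G y = ∫ y in (a 0)..(a n), G y := by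
    rw [intervalIntegral.integral_of_le (by linarith)]
    symm
    apply setIntegral_eq_integral_of_forall_compl_eq_zero
    intro y hy
    apply h0
    by_contra h
    have h1 := abs_le.1 (not_lt.1 h)
    exact hy ⟨by linarith [h1.1], by linarith [h1.2]⟩
  have hsum : ∫ y in (a 0)..(a n), G y = ∑ k ∈ range n, ∫ y in (a k)..(a (k + 1)), G y := by
    rw [intervalIntegral.sum_integral_adjacent_intervals]
    intro k _
    exact hint.intervalIntegrable
  have hsum2 : (∑ k : Fin n, G ((((k : ℕ) : ℝ) - ((r : ℕ) : ℝ)) / S)) / S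
      = ∑ k ∈ range n, ∫ y in (a k)..(a (k + 1)), G (a k) := by
    rw [Finset.sum_div, ← Fin.sum_univ_eq_sum_range (fun k => ∫ y in (a k)..(a (k + 1)), G (a k))]
    apply Finset.sum_congr rfl
    intro k _
    rw [intervalIntegral.integral_const, hstep]
    simp only [ha, smul_eq_mul]
    ring
  set h : ℝ → ℝ := Set.indicator (Set.Icc (-(L + 1)) (L + 1)) (fun _ => e) with hh
  have hhint : Integrable h := by
    rw [hh, integrable_indicator_iff measurableSet_Icc]
    exact integrableOn_const (by simp)
  have hh0 : ∀ y, 0 ≤ h y := by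
    intro y
    rw [hh]
    exact Set.indicator_nonneg (fun _ _ => he0.le) y
  have hhI : ∫ y, h y = ε := by
    rw [hh, integral_indicator measurableSet_Icc, setIntegral_const, smul_eq_mul, Measure.real,
      Real.volume_Icc, ENNReal.toReal_ofReal (by linarith), he]
    field_simp
    ring
  have hbd : ∀ k ∈ range n, |(∫ y in (a k)..(a (k + 1)), G (a k)) -
      ∫ y in (a k)..(a (k + 1)), G y| ≤ ∫ y in (a k)..(a (k + 1)), h y := by
    intro k _
    rw [← intervalIntegral.integral_sub (by simp) hint.intervalIntegrable]
    rw [← Real.norm_eq_abs]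
    refine le_trans (intervalIntegral.norm_integral_le_integral_norm (hle k)) ?_
    apply intervalIntegral.integral_mono_on (hle k)
    · exact ((intervalIntegrable_const).sub hint.intervalIntegrable).norm
    · exact hhint.intervalIntegrable
    intro y hy
    have hy1 : |y - a k| ≤ 1 / S := by
      rw [abs_le]
      rw [hstep] at hy
      have : 0 < 1 / S := by positivity
      exact ⟨by linarith [hy.1], by linarith [hy.2]⟩
    by_cases hm : y ∈ Set.Icc (-(L + 1)) (L + 1)
    · rw [hh, Set.indicator_of_mem hm]
      have := hd (a := a k) (b := y) (by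
        rw [Real.dist_eq, abs_sub_comm]
        linarith)
      rw [Real.dist_eq] at this
      rw [Real.norm_eq_abs]
      exact this.le
    · have hy2 : L + 1 < |y| := by
        by_contra h3
        exact hm (Set.mem_Icc.2 (abs_le.1 (not_lt.1 h3)))
      have h4 : L < |a k| := by
        have : |y| ≤ |y - a k| + |a k| := by
          have := abs_add_le (y - a k) (a k)
          simpa using this
        linarith
      rw [h0 y (by linarith), h0 _ h4]
      simp [hh0 y]
  rw [hsum2, hI, hsum, ← Finset.sum_sub_distrib]
  calc |∑ k ∈ range n, ((∫ y in (a k)..(a (k + 1)), G (a k)) - ∫ y in (a k)..(a (k + 1)), G y)|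
      ≤ ∑ k ∈ range n, |(∫ y in (a k)..(a (k + 1)), G (a k)) -
        ∫ y in (a k)..(a (k + 1)), G y| := Finset.abs_sum_le_sum_abs _ _
    _ ≤ ∑ k ∈ range n, ∫ y in (a k)..(a (k + 1)), h y := Finset.sum_le_sum hbd
    _ = ∫ y in (a 0)..(a n), h y := by
        rw [intervalIntegral.sum_integral_adjacent_intervals]
        intro k _
        exact hhint.intervalIntegrable
    _ ≤ ∫ y, h y := by
        rw [intervalIntegral.integral_of_le (by linarith)]
        exact setIntegral_le_integral hhint (Eventually.of_forall hh0)
    _ = ε := hhI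

end Pool.Agent.Helper35.KS
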