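import Pool.Agent.Helper75.KS.GoalsX

/-!
# One system from one poset
-/

namespace Pool.Agent.Helper35.KS

open MeasureTheory Filter Topology Finset
open Pool.Agent.Helper44.KS
open Pool.Agent.Helper75.KS
open Pool.Agent.Helper89.GP (LX po Ex Pr hh Ch)

noncomputable section

/-- The normalized configuration. -/
def LL {n : ℕ} (x : Fin n) (S : ℝ) (v : Fin n → ℝ) : Fin n → ℝ := fun p => (v p - v x) / S

lemma LL_cont {n : ℕ} (x : Fin n) (S : ℝ) : Continuous (LL x S) := by
  unfold LL
  fun_prop

lemma LL_comb {n : ℕ} (x : Fin n) (S : ℝ) (u v : Fin n → ℝ) (t : ℝ) :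
    LL x S ((1 - t) • u + t • v) = (1 - t) • LL x S u + t • LL x S v := by
  funext p
  simp only [LL, Pi.add_apply, Pi.smul_apply, smul_eq_mul]
  ring

lemma LL_lt {n : ℕ} (x : Fin n) {S : ℝ} (hS : 0 < S) (v : Fin n → ℝ) (p q : Fin n) :
    LL x S v p < LL x S v q ↔ v p < v q := by
  simp only [LL]
  rw [div_lt_div_iff_of_pos_right hS]
  constructor <;> intro h <;> linarith

lemma LL_ne {n : ℕ} (x : Fin n) {S : ℝ} (hS : 0 < S) (v : Fin n → ℝ) (p q : Fin n) :
    LL x S v p ≠ LL x S v q ↔ v p ≠ v q := by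
  simp only [LL]
  rw [not_iff_not, div_left_inj' hS.ne', sub_left_inj]

theorem syb (hPRB : PrbStmt) (hMOM : MomStmt) (hORD : OrdStmt) (hLCV : LcvStmt) (hCNT : CntStmt)
    (hENE : EneStmt) : SybStmt := by
  intro n R x c K hc hstd
  set S := dev R x with hSdef
  have hS1 : 1 ≤ S := hstd.one
  have hS0 : 0 < S := by linarith
  have hprob : IsProbabilityMeasure (mu R) := hPRB.2.2 n R hstd.ne
  have hLm : Measurable (LL x S) := (LL_cont x S).measurable
  set μ : Measure (Fin n → ℝ) := (mu R).map (LL x S) with hμ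
  have hμprob : IsProbabilityMeasure μ := Measure.isProbabilityMeasure_map hLm.aemeasurable
  have hreal : ∀ A : Set (Fin n → ℝ), MeasurableSet A →
      μ.real A = (mu R).real ((LL x S) ⁻¹' A) := fun A hA => map_measureReal_apply hLm hA
  have hMz : ∀ z, Integrable (fun v : Fin n → ℝ => v z) (mu R) ∧
    ∫ v, v z ∂(mu R) = hh R z + 1 := (hMOM n R hstd.ne).1
  have hintd : ∀ p, Integrable (fun v : Fin n → ℝ => LL x S v p) (mu R) := by
    intro p
    exact ((hMz p).1.sub (hMz x).1).div_const S
  have hmeas : ∀ p, AEStronglyMeasurable (fun d : Fin n → ℝ => d p) μ := fun p =>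
    (measurable_pi_apply p).aestronglyMeasurable
  have hint : ∀ p, Integrable (fun d : Fin n → ℝ => d p) μ := by
    intro p
    rw [hμ, integrable_map_measure (hmeas p) hLm.aemeasurable]
    exact hintd p
  have hE : ∀ p, ∫ e, e p ∂μ = (hh R p - hh R x) / S := by
    intro p
    rw [hμ, integral_map hLm.aemeasurable (hmeas p)]
    simp only [LL]
    rw [integral_div, integral_sub (hMz p).1 (hMz x).1, (hMz p).2, (hMz x).2]
    ring
  have hdist : ∀ p, ∫ d, |d p - ∫ e, e p ∂μ| ∂μ ≤
      √(|(hh R p - hh R x) / S| * S + 2 * S) / S + 2 := by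
    intro p
    rw [hE p]
    have h1 : ∫ d, |d p - (hh R p - hh R x) / S| ∂μ =
        (∫ v, |v p - v x - (hh R p - hh R x)| ∂(mu R)) / S := by
      have hco : Continuous fun d : Fin n → ℝ => |d p - (hh R p - hh R x) / S| := by fun_prop
      rw [hμ, integral_map hLm.aemeasurable hco.measurable.aestronglyMeasurable, ← integral_div]
      apply integral_congr_ae
      refine Eventually.of_forall ?_
      intro v
      simp only [LL]
      rw [← sub_div, abs_div, abs_of_pos hS0]
    rw [h1]
    have h2 := (hMOM n R hstd.ne).2 p x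
    have h3 : dev R p ≤ S := hstd.mx p
    have h4 : |(hh R p - hh R x) / S| * S = |hh R p - hh R x| := by
      rw [abs_div, abs_of_pos hS0]
      field_simp
    rw [h4, div_le_iff₀ hS0]
    have h5 : √(|hh R p - hh R x| + dev R p + dev R x) ≤ √(|hh R p - hh R x| + 2 * S) := by
      apply Real.sqrt_le_sqrt
      linarith
    have h6 : (√(|hh R p - hh R x| + 2 * S) / S + 2) * S = √(|hh R p - hh R x| + 2 * S) + 2 * S := by
      field_simp
    rw [h6]
    linarith
  have hsq : ∀ t : ℝ, 0 ≤ t → √(t * S + 2 * S) / S = √((t + 2) / S) := by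
    intro t ht
    have h1 : (t + 2) / S = (t * S + 2 * S) / S ^ 2 := by
      field_simp
    rw [h1, Real.sqrt_div' _ (by positivity), Real.sqrt_sq hS0.le]
  have hord : ∀ p q, μ.real {d | d p < d q} = Pr R fun σ => po σ p < po σ q := by
    intro p q
    rw [hreal _ (measurableSet_lt (measurable_pi_apply p) (measurable_pi_apply q))]
    rw [← (hORD n R p q hstd.ne).1]
    congr 1
    ext v
    exact LL_lt x hS0 v p q
  refine ⟨⟨n, μ, S, x, hμprob, hS1, hint, ?_, ?_, ?_, ?_, ?_, ?_, ?_, ?_⟩, rfl, ?_⟩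
  · -- ref
    rw [hμ, ae_map_iff hLm.aemeasurable
      (measurableSet_eq_fun (measurable_pi_apply x) measurable_const)]
    refine Eventually.of_forall ?_
    intro v
    simp [LL]
  · -- noties
    intro p q hpq
    have hm : MeasurableSet {d : Fin n → ℝ | d p ≠ d q} :=
      (measurableSet_eq_fun (measurable_pi_apply p) (measurable_pi_apply q)).compl
    rw [hμ, ae_map_iff hLm.aemeasurable hm]
    filter_upwards [(hORD n R p q hstd.ne).2 hpq] with v hv
    exact (LL_ne x hS0 v p q).2 hv
  · -- lc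
    intro A B C t hA hB hC _ _ ht0 ht1 hABC
    rw [hreal A hA.measurableSet, hreal B hB.measurableSet, hreal C hC.measurableSet]
    apply hLCV n R _ _ _ t hstd.ne (hA.preimage (LL_cont x S)) (hB.preimage (LL_cont x S))
      (hC.preimage (LL_cont x S)) ht0 ht1
    intro u hu v hv
    rw [Set.mem_preimage, LL_comb]
    exact hABC _ hu _ hv
  · -- m1
    intro p hp
    refine le_trans (hdist p) ?_
    rw [hE p] at hp
    rw [hsq _ (abs_nonneg _)]
    have h1 : (|(hh R p - hh R x) / S| + 2) / S ≤ 2 ^ 2 := by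
      rw [div_le_iff₀ hS0]
      linarith
    have h2 : √((|(hh R p - hh R x) / S| + 2) / S) ≤ 2 := by
      rw [show (2 : ℝ) = √(2 ^ 2) by rw [Real.sqrt_sq]; norm_num]
      exact Real.sqrt_le_sqrt (by simpa using h1)
    linarith
  · -- m2
    intro p
    refine le_trans (hdist p) ?_
    rw [hE p, hsq _ (abs_nonneg _)]
    have h1 : √((|(hh R p - hh R x) / S| + 2) / S) ≤ √|(hh R p - hh R x) / S| + 2 := by
      rw [Real.sqrt_le_left (by positivity)]
      have h2 : (|(hh R p - hh R x) / S| + 2) / S ≤ |(hh R p - hh R x) / S| + 2 :=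
        div_le_self (by positivity) hS1
      have h3 : (√|(hh R p - hh R x) / S|) ^ 2 = |(hh R p - hh R x) / S| :=
        Real.sq_sqrt (abs_nonneg _)
      have h4 : 0 ≤ √|(hh R p - hh R x) / S| := Real.sqrt_nonneg _
      nlinarith
    linarith
  · -- cnt
    intro u
    have h1 := hCNT n R S (u * S + hh R x) hstd.ne hS1 hstd.mx
    refine le_trans (le_of_eq ?_) h1
    rw [Fintype.card_subtype]
    congr 2
    ext p
    simp only [Finset.mem_filter, Finset.mem_univ, true_and]
    rw [hE p, le_div_iff₀ hS0, div_lt_iff₀ hS0]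
    constructor
    · rintro ⟨h1, h2⟩
      exact ⟨by linarith, by linarith⟩
    · rintro ⟨h1, h2⟩
      exact ⟨by linarith, by linarith⟩
  · -- energy
    simp only [hord]
    exact hENE n R x hstd.ne
  · -- nobal
    intro p q hpq
    rw [hord]
    exact hstd.nb p q hpq
  · intro G ε hG
    have hcont : Continuous fun d : Fin n → ℝ => |(∑ p, G (d p)) / S - ∫ y, G y| := by
      fun_prop
    exact hreal {d | ε < |(∑ p, G (d p)) / S - ∫ y, G y|}
      (isOpen_lt continuous_const hcont).measurableSet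

end

end Pool.Agent.Helper35.KS
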